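import Mathlib
import Pool.Agent.N988.EU.Main

/-!
# The most-pivotal-site algorithm on hierarchical lattices

Authors: helper988 (statements, proofs on paper, assembly) and, for the parts in Lean, the helpers
137, 152, 252, 283, 285, 286, 323, 349, 362, 371, 390, 391, 409, 482, 494, 521, 527, 530, 545, 564,
627, 697, 823, 942, 952 and 966.
-/

open MeasureTheory Filter
open scoped Topology
open Pool.Agent.N988.EA Pool.Agent.N988.EC Pool.Agent.N988.EP Pool.Agent.N988.ES
open Pool.Agent.N988.ET Pool.Agent.N988.EU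

namespace Pool.Agent.Results.MP_01b476_pr.HierarchicalMostPivotal

/-- Critical percolation on the hierarchical (diamond, Migdal-Kadanoff) lattices `H n` with `b ≥ 2`
branches: every algorithm which finds out whether the two ends are joined by open edges and always
queries an edge with the largest conditional probability of being pivotal makes exactly
`(1 + 1 / pc) ^ n` queries in the mean, whatever the rule for ties is; no algorithm which finds it
out makes fewer in the mean. This is at most a power with an exponent below one of the number of the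
edges. -/
theorem result (b : ℕ) (hb : 2 ≤ b) : ∃ pc : ℝ, 0 < pc ∧ pc < 1 ∧
    1 - (1 - pc ^ 2) ^ b = pc ∧
    (∀ p : ℝ, 0 ≤ p → p < pc →
      Tendsto (fun n : ℕ => (iid (coin (1 - p)) b n).real {w | across w = 0}) atTop (𝓝 0)) ∧
    (∀ p : ℝ, pc < p → p ≤ 1 →
      Tendsto (fun n : ℕ => (iid (coin (1 - p)) b n).real {w | across w = 0}) atTop (𝓝 1)) ∧
    (∀ n : ℕ, (∀ e : Edge b n, Best pc (fun _ => none) e) ∧
      (∃ t : Pool.Agent.N988.ET.Tree (Edge b n), Runs pc t fun _ => none) ∧
      (∀ t : Pool.Agent.N988.ET.Tree (Edge b n), (Runs pc t fun _ => none) →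
        ∫ w, (steps t w : ℝ) ∂(iid (coin (1 - pc)) b n) = (1 + 1 / pc) ^ n) ∧
      ∀ t : Pool.Agent.N988.ET.Tree (Edge b n), (Finds t fun _ => none) →
        (1 + 1 / pc) ^ n ≤ ∫ w, (steps t w : ℝ) ∂(iid (coin (1 - pc)) b n)) ∧
    ∃ ε : ℝ, 0 < ε ∧ ∀ n : ℕ, (1 + 1 / pc) ^ n ≤ (Fintype.card (Edge b n) : ℝ) ^ (1 - ε) :=
  t_MP2 b hb

end Pool.Agent.Results.MP_01b476_pr.HierarchicalMostPivotal
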